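import Pool.Agent.D0H50.BK.Abs
import Mathlib.CategoryTheory.CofilteredSystem

/-!
# Descent of the vanishing of a Selmer group to the twists by integral representations, for `V_p`

Abstract part (helper50).
-/

set_option autoImplicit false

namespace Pool.Agent.D0H50.BK

section abs

variable {G A : Type} [Group G] [AddCommGroup A] {g : ℕ}

/-- sequences `x_n` of elements of `p`-power order with `p x_(n+1) = x_n` -/
def IsVp (p : ℕ) (x : ℕ → A) : Prop := ∀ n, p • x (n + 1) = x n ∧ ∃ m : ℕ, p ^ m • x n = 0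

lemma IsVp.add {p : ℕ} {x y : ℕ → A} (hx : IsVp p x) (hy : IsVp p y) :
    IsVp p fun n => x n + y n := fun n =>
  ⟨by rw [smul_add, (hx n).1, (hy n).1], (tor p A).add_mem (hx n).2 (hy n).2⟩

lemma IsVp.zero {p : ℕ} : IsVp p fun _ => (0 : A) := fun _ => ⟨smul_zero _, 0, smul_zero _⟩

lemma IsVp.zsmul {p : ℕ} {x : ℕ → A} (hx : IsVp p x) (k : ℤ) : IsVp p fun n => k • x n := fun n =>
  ⟨by rw [smul_comm, (hx n).1], (tor p A).zsmul_mem (hx n).2 k⟩

lemma IsVp.sub {p : ℕ} {x y : ℕ → A} (hx : IsVp p x) (hy : IsVp p y) :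
    IsVp p fun n => x n - y n := fun n =>
  ⟨by rw [smul_sub, (hx n).1, (hy n).1], (tor p A).sub_mem (hx n).2 (hy n).2⟩

lemma IsVp.map {p : ℕ} {x : ℕ → A} (hx : IsVp p x) (f : A →+ A) : IsVp p fun n => f (x n) := fun n =>
  ⟨by rw [← map_nsmul, (hx n).1], by
    obtain ⟨m, hm⟩ := (hx n).2
    exact ⟨m, by rw [← map_nsmul, hm, map_zero]⟩⟩

lemma IsVp.sum {p : ℕ} {ι : Type} (s : Finset ι) {x : ι → ℕ → A} (hx : ∀ i, IsVp p (x i)) :
    IsVp p fun n => ∑ i ∈ s, x i n := by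
  classical
  induction s using Finset.induction_on with
  | empty => simpa using IsVp.zero
  | insert i s hi ih =>
    have h := (hx i).add ih
    simp only [Finset.sum_insert hi]
    exact h

lemma IsVp.pow {p : ℕ} {x : ℕ → A} (hx : IsVp p x) (n k : ℕ) : p ^ k • x (n + k) = x n := by
  induction k with
  | zero => simp
  | succ k ih => rw [pow_succ, mul_smul, ← add_assoc, (hx (n + k)).1, ih]

/-- there are no elements of `V_p` with values in a finite group -/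
lemma IsVp.eq_zero {p : ℕ} (hp : p.Prime) {x : ℕ → A} (hx : IsVp p x) (B : AddSubgroup A) [Finite B]
    (h : ∀ n, x n ∈ B) (n : ℕ) : x n = 0 := by
  obtain ⟨v, N', hndvd, hNv⟩ := Nat.exists_eq_pow_mul_and_not_dvd
    (Nat.card_pos (α := B)).ne' p hp.ne_one
  have h1 : ∀ y : A, y ∈ B → (∃ m : ℕ, p ^ m • y = 0) → p ^ v • y = 0 := by
    rintro y hy ⟨m, hm⟩
    have h2 : (Nat.card B) • y = 0 := by
      have h3 : (Nat.card B) • (⟨y, hy⟩ : B) = 0 := card_nsmul_eq_zero'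
      exact congrArg Subtype.val h3
    have h4 : addOrderOf y ∣ p ^ m := addOrderOf_dvd_iff_nsmul_eq_zero.2 hm
    have h5 : addOrderOf y ∣ Nat.card B := addOrderOf_dvd_iff_nsmul_eq_zero.2 h2
    obtain ⟨k, -, hk⟩ := (Nat.dvd_prime_pow hp).1 h4
    rw [hk, hNv] at h5
    have h6 : Nat.Coprime (p ^ k) N' := Nat.Coprime.pow_left _ ((Nat.Prime.coprime_iff_not_dvd hp).2 hndvd)
    have h7 : p ^ k ∣ p ^ v := h6.dvd_of_dvd_mul_right h5
    rw [← hk] at h7
    exact addOrderOf_dvd_iff_nsmul_eq_zero.1 h7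
  rw [← hx.pow n v]
  exact h1 _ (h _) (hx _).2

/-- A cocycle with values in `V_p ⊗ M` whose restriction to a normal subgroup `N` which acts without
fixed points on `V_p` is a coboundary is a coboundary. -/
theorem descendV (p : ℕ) (a : G → A →+ A) (r : G → Matrix (Fin g) (Fin g) ℤ)
    (ha : ∀ σ τ x, a (σ * τ) x = a σ (a τ x)) (hr : ∀ σ τ, r (σ * τ) = r σ * r τ)
    (N : Subgroup G) (hN : N.Normal) (hrN : ∀ τ ∈ N, r τ = 1)
    (hfix : ∀ y : ℕ → A, IsVp p y → (∀ τ ∈ N, ∀ n, a τ (y n) = y n) → ∀ n, y n = 0)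
    (c : G → Fin g → ℕ → A) (hcp : ∀ σ i, IsVp p (c σ i))
    (hc : ∀ σ τ i n, c (σ * τ) i n = c σ i n + ∑ j, r σ i j • a σ (c τ j n))
    (x : Fin g → ℕ → A) (hxp : ∀ i, IsVp p (x i))
    (hx : ∀ τ ∈ N, ∀ i n, c τ i n = a τ (x i n) - x i n) :
    ∀ σ i n, c σ i n = ∑ j, r σ i j • a σ (x j n) - x i n := by
  set d : G → Fin g → ℕ → A := fun σ i n => c σ i n - (∑ j, r σ i j • a σ (x j n) - x i n) with hd
  have hdp : ∀ σ i, IsVp p (d σ i) := by
    intro σ i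
    exact (hcp σ i).sub ((IsVp.sum Finset.univ fun j => ((hxp j).map (a σ)).zsmul (r σ i j)).sub (hxp i))
  have h1 : ∀ σ τ i n, d (σ * τ) i n = d σ i n + ∑ j, r σ i j • a σ (d τ j n) := by
    intro σ τ i n
    have h2 : ∑ j, r (σ * τ) i j • a (σ * τ) (x j n) =
        ∑ j, r σ i j • a σ (∑ l, r τ j l • a τ (x l n)) := by
      rw [hr]
      simp only [Matrix.mul_apply, Finset.sum_smul, map_sum, map_zsmul, Finset.smul_sum, ha, mul_smul]
      rw [Finset.sum_comm]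
    simp only [hd]
    rw [hc, h2]
    simp only [map_sub, smul_sub, Finset.sum_sub_distrib]
    abel
  have hN1 : ∀ τ ∈ N, ∀ i n, ∀ y : Fin g → ℕ → A, ∑ j, r τ i j • a τ (y j n) = a τ (y i n) := by
    intro τ hτ i n y
    rw [hrN τ hτ, Finset.sum_eq_single i]
    · rw [Matrix.one_apply_eq, one_smul]
    · intro j _ hj
      rw [Matrix.one_apply_ne hj.symm, zero_smul]
    · intro h
      exact absurd (Finset.mem_univ i) h
  have h0 : ∀ τ ∈ N, ∀ i n, d τ i n = 0 := by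
    intro τ hτ i n
    simp only [hd]
    rw [hx τ hτ, hN1 τ hτ i n x, sub_self]
  intro σ i n
  have h3 : d σ i n = 0 := by
    refine hfix _ (hdp σ i) (fun τ hτ n => ?_) n
    have h4 := h1 τ σ i n
    rw [h0 τ hτ, zero_add, hN1 τ hτ i n (d σ)] at h4
    have h5 : τ * σ = σ * (σ⁻¹ * τ * σ) := by group
    have h6 : σ⁻¹ * τ * σ ∈ N := by
      have := hN.conj_mem τ hτ σ⁻¹
      rwa [inv_inv] at this
    rw [← h4, h5, h1]
    simp only [h0 _ h6, map_zero, smul_zero, Finset.sum_const_zero, add_zero]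
  exact sub_eq_zero.1 h3

end abs

section lift

variable {A G : Type} [AddCommGroup A] (a : G → A →+ A) {p : ℕ}

/-- the fixed points -/
def Fix : AddSubgroup A where
  carrier := {P | ∀ σ, a σ P = P}
  zero_mem' := fun σ => map_zero _
  add_mem' := fun {x y} hx hy σ => by rw [map_add, hx σ, hy σ]
  neg_mem' := fun {x} hx σ => by rw [map_neg, hx σ]

lemma p_prim (hp : p.Prime) [Finite (Fix a)] (c : G → A) (K : ℕ) (hK : ∀ σ, (p ^ K : ℕ) • c σ = 0)
    (hcob : ∃ P, ∀ σ, c σ = a σ P - P) :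
    ∃ P, (∃ m : ℕ, (p ^ m : ℕ) • P = 0) ∧ ∀ σ, c σ = a σ P - P := by
  obtain ⟨P0, hP0⟩ := hcob
  obtain ⟨N, hN⟩ : ∃ N : ℕ, N = Nat.card (Fix a) := ⟨_, rfl⟩
  have hN0 : N ≠ 0 := by
    rw [hN]
    exact Nat.card_pos.ne'
  obtain ⟨v, N', hndvd, hNv⟩ := Nat.exists_eq_pow_mul_and_not_dvd hN0 p hp.ne_one
  have hcop : Nat.Coprime (p ^ K) N' := by
    apply Nat.Coprime.pow_left
    exact (Nat.Prime.coprime_iff_not_dvd hp).2 hndvd
  obtain ⟨u, hu1, hu2⟩ := Nat.chineseRemainder hcop 1 0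
  have hQ : (p ^ K : ℕ) • P0 ∈ Fix a := by
    intro σ
    rw [map_nsmul, ← sub_eq_zero, ← nsmul_sub, ← hP0, hK]
  have hNQ : N • ((p ^ K : ℕ) • P0) = 0 := by
    have h1 : N • (⟨_, hQ⟩ : Fix a) = 0 := by
      rw [hN]
      exact card_nsmul_eq_zero'
    exact congrArg Subtype.val h1
  have hcu : ∀ σ, u • c σ = c σ := by
    intro σ
    obtain ⟨t, ht⟩ := (Nat.modEq_iff_dvd.1 hu1.symm)
    have h1 : (u : ℤ) = 1 + t * (p ^ K : ℕ) := by
      have h2 : (u : ℤ) - ((1 : ℕ) : ℤ) = ((p ^ K : ℕ) : ℤ) * t := ht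
      push_cast at h2 ⊢
      linarith
    rw [← natCast_zsmul, h1, add_smul, one_smul, mul_smul, natCast_zsmul, hK, smul_zero, add_zero]
  refine ⟨u • P0, ⟨v + K, ?_⟩, fun σ => ?_⟩
  · obtain ⟨w, hw⟩ := (Nat.modEq_zero_iff_dvd.1 hu2)
    have h1 : (p ^ (v + K) : ℕ) * u = w * (N * p ^ K) := by
      rw [hw, hNv, pow_add]
      ring
    rw [smul_smul, h1, mul_smul, mul_smul, hNQ, smul_zero]
  · rw [map_nsmul, ← nsmul_sub, ← hP0, hcu]

/-- **Lifting lemma** (inverse limits of finite nonempty sets). -/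
theorem liftV (hp : p.Prime) [Finite (Fix a)] (c : G → ℕ → A)
    (hc : ∀ σ n, p • c σ (n + 1) = c σ n)
    (htor : ∀ n, ∃ K : ℕ, ∀ σ, (p ^ K : ℕ) • c σ n = 0)
    (hcob : ∀ n, ∃ P, ∀ σ, c σ n = a σ P - P) :
    ∃ x : ℕ → A, IsVp p x ∧ ∀ σ n, c σ n = a σ (x n) - x n := by
  have hpow : ∀ (σ : G) (n k : ℕ), (p ^ k : ℕ) • c σ (n + k) = c σ n := by
    intro σ n k
    induction k with
    | zero => simp
    | succ k ih =>
      rw [pow_succ, mul_smul, ← add_assoc, hc, ih]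
  have hne : ∀ n, ∃ P, (∃ m : ℕ, (p ^ m : ℕ) • P = 0) ∧ ∀ σ, c σ n = a σ P - P := by
    intro n
    obtain ⟨K, hK⟩ := htor n
    exact p_prim a hp (fun σ => c σ n) K hK (hcob n)
  let S : ℕ → Type := fun n => {P : A // (∃ m : ℕ, (p ^ m : ℕ) • P = 0) ∧ ∀ σ, c σ n = a σ P - P}
  have hfin : ∀ n, Finite (S n) := by
    intro n
    obtain ⟨P0, hP0, hP1⟩ := hne n
    refine Finite.of_injective (β := Fix a) (fun P => ⟨P.1 - P0, fun σ => ?_⟩) (fun P Q h => ?_)
    · have h1 := P.2.2 σ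
      rw [hP1 σ] at h1
      rw [map_sub]
      have h2 : a σ P.1 = a σ P0 - P0 + P.1 := by
        rw [h1]
        abel
      rw [h2]
      abel
    · have h1 : P.1 - P0 = Q.1 - P0 := congrArg Subtype.val h
      exact Subtype.ext (sub_left_injective h1)
  have hnon : ∀ n, Nonempty (S n) := by
    intro n
    obtain ⟨P0, hP0⟩ := hne n
    exact ⟨⟨P0, hP0⟩⟩
  obtain ⟨f, hf⟩ := exists_seq_forall_proj_of_forall_finite (α := S)
    (fun {i j} hij P => ⟨(p ^ (j - i) : ℕ) • P.1, by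
      obtain ⟨⟨m, hm⟩, h2⟩ := P.2
      refine ⟨⟨m, by rw [smul_comm, hm, smul_zero]⟩, fun σ => ?_⟩
      rw [map_nsmul, ← nsmul_sub, ← h2 σ]
      have := hpow σ i (j - i)
      rw [Nat.add_sub_cancel' hij] at this
      exact this.symm⟩)
    (fun i P => by
      apply Subtype.ext
      simp)
    (fun i j k hij hjk P => by
      apply Subtype.ext
      show (p ^ (j - i) : ℕ) • ((p ^ (k - j) : ℕ) • P.1) = (p ^ (k - i) : ℕ) • P.1
      rw [smul_smul, ← pow_add]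
      congr 2
      omega)
    (fun i P => Set.toFinite _)
  refine ⟨fun n => (f n).1, fun n => ⟨?_, (f n).2.1⟩, fun σ n => (f n).2.2 σ⟩
  have h1 := congrArg Subtype.val (hf (Nat.le_add_right n 1))
  have h2 : (p ^ (n + 1 - n) : ℕ) • (f (n + 1)).1 = (f n).1 := h1
  rw [Nat.add_sub_cancel_left, pow_one] at h2
  exact h2

end lift

end Pool.Agent.D0H50.BK
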