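import Mathlib

/-!
# Descent of the vanishing of a Selmer group to the twists by integral representations

Abstract part (helper50).
-/

set_option autoImplicit false

namespace Pool.Agent.D0H50.BK

section abs

variable {G A : Type} [Group G] [AddCommGroup A] {g : ℕ}

/-- the elements of `p`-power order -/
def tor (p : ℕ) (A : Type) [AddCommGroup A] : AddSubgroup A where
  carrier := {x | ∃ m : ℕ, p ^ m • x = 0}
  zero_mem' := ⟨0, smul_zero _⟩
  add_mem' := by
    rintro x y ⟨m, hm⟩ ⟨l, hl⟩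
    refine ⟨m + l, ?_⟩
    have h1 : p ^ (m + l) • x = 0 := by rw [pow_add, mul_comm, mul_smul, hm, smul_zero]
    have h2 : p ^ (m + l) • y = 0 := by rw [pow_add, mul_smul, hl, smul_zero]
    rw [smul_add, h1, h2, add_zero]
  neg_mem' := by
    rintro x ⟨m, hm⟩
    exact ⟨m, by rw [smul_neg, hm, neg_zero]⟩

/-- A cocycle whose restriction to a normal subgroup `N` which acts without fixed points is a
coboundary is a coboundary. -/
theorem descend (p : ℕ) (a : G → A →+ A) (r : G → Matrix (Fin g) (Fin g) ℤ)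
    (ha : ∀ σ τ x, a (σ * τ) x = a σ (a τ x)) (hr : ∀ σ τ, r (σ * τ) = r σ * r τ)
    (N : Subgroup G) (hN : N.Normal) (hrN : ∀ τ ∈ N, r τ = 1)
    (hfix : ∀ P : A, (∃ m : ℕ, p ^ m • P = 0) → (∀ τ ∈ N, a τ P = P) → P = 0)
    (c : G → Fin g → ℕ → A) (hcp : ∀ σ i n, ∃ m : ℕ, p ^ m • c σ i n = 0)
    (hc : ∀ σ τ i n, c (σ * τ) i n = c σ i n + ∑ j, r σ i j • a σ (c τ j n))
    (x : Fin g → ℕ → A) (hxp : ∀ i n, ∃ m : ℕ, p ^ m • x i n = 0)
    (hx : ∀ τ ∈ N, ∀ i n, c τ i n = a τ (x i n) - x i n) :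
    ∀ σ i n, c σ i n = ∑ j, r σ i j • a σ (x j n) - x i n := by
  set d : G → Fin g → ℕ → A := fun σ i n => c σ i n - (∑ j, r σ i j • a σ (x j n) - x i n) with hd
  have hdp : ∀ σ i n, d σ i n ∈ tor p A := by
    intro σ i n
    refine (tor p A).sub_mem (hcp σ i n) ((tor p A).sub_mem ?_ (hxp i n))
    refine (tor p A).sum_mem fun j _ => (tor p A).zsmul_mem ?_ _
    obtain ⟨m, hm⟩ := hxp j n
    exact ⟨m, by rw [← map_nsmul, hm, map_zero]⟩
  have h1 : ∀ σ τ i n, d (σ * τ) i n = d σ i n + ∑ j, r σ i j • a σ (d τ j n) := by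
    intro σ τ i n
    have h2 : ∑ j, r (σ * τ) i j • a (σ * τ) (x j n) =
        ∑ j, r σ i j • a σ (∑ l, r τ j l • a τ (x l n)) := by
      rw [hr]
      simp only [Matrix.mul_apply, Finset.sum_smul, map_sum, map_zsmul, Finset.smul_sum, ha, mul_smul]
      rw [Finset.sum_comm]
    simp only [hd]
    rw [hc, h2]
    simp only [map_sub, smul_sub, Finset.sum_sub_distrib]
    abel
  have hN1 : ∀ τ ∈ N, ∀ i n, ∀ y : Fin g → ℕ → A, ∑ j, r τ i j • a τ (y j n) = a τ (y i n) := by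
    intro τ hτ i n y
    rw [hrN τ hτ, Finset.sum_eq_single i]
    · rw [Matrix.one_apply_eq, one_smul]
    · intro j _ hj
      rw [Matrix.one_apply_ne hj.symm, zero_smul]
    · intro h
      exact absurd (Finset.mem_univ i) h
  have h0 : ∀ τ ∈ N, ∀ i n, d τ i n = 0 := by
    intro τ hτ i n
    simp only [hd]
    rw [hx τ hτ, hN1 τ hτ i n x, sub_self]
  intro σ i n
  have h3 : d σ i n = 0 := by
    refine hfix _ (hdp σ i n) fun τ hτ => ?_
    have h4 := h1 τ σ i n
    rw [h0 τ hτ, zero_add, hN1 τ hτ i n (d σ)] at h4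
    have h5 : τ * σ = σ * (σ⁻¹ * τ * σ) := by group
    have h6 : σ⁻¹ * τ * σ ∈ N := by
      have := hN.conj_mem τ hτ σ⁻¹
      rwa [inv_inv] at this
    rw [← h4, h5, h1]
    simp only [h0 _ h6, map_zero, smul_zero, Finset.sum_const_zero, add_zero]
  exact sub_eq_zero.1 h3

end abs

end Pool.Agent.D0H50.BK
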