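import Pool.Agent.D0H50.BK.Trans
import Pool.Agent.TH841.NF.ShaN

/-!
# From the Tate-Shafarevich group of `TH841/NF/ShaN.lean` to cocycles over the separable closure

(helper50)
-/

set_option autoImplicit false
set_option linter.all false

open IsDedekindDomain NumberField WeierstrassCurve WeierstrassCurve.Affine Pool.Agent.TH115.GD
open scoped Classical

namespace Pool.Agent.D0H50.BK

section conj

variable {K Ω₁ Ω₂ : Type} [Field K] [Field Ω₁] [Field Ω₂] [Algebra K Ω₁] [Algebra K Ω₂]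

/-- conjugation by an isomorphism -/
def cj (e : Ω₁ ≃ₐ[K] Ω₂) : (Ω₂ ≃ₐ[K] Ω₂) →* (Ω₁ ≃ₐ[K] Ω₁) :=
  (AlgEquiv.autCongr e.symm).toMonoidHom

lemma cj_apply (e : Ω₁ ≃ₐ[K] Ω₂) (τ : Ω₂ ≃ₐ[K] Ω₂) (x : Ω₁) : cj e τ x = e.symm (τ (e x)) := rfl

lemma e_cj (e : Ω₁ ≃ₐ[K] Ω₂) (τ : Ω₂ ≃ₐ[K] Ω₂) (x : Ω₁) : e (cj e τ x) = τ (e x) := by
  rw [cj_apply, AlgEquiv.apply_symm_apply]

lemma cont_cj (e : Ω₁ ≃ₐ[K] Ω₂) : Continuous (cj e) := by
  apply continuous_of_continuousAt_one
  unfold ContinuousAt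
  rw [map_one]
  intro s hs
  obtain ⟨E, hE, hEs⟩ := (krullTopology_mem_nhds_one_iff K Ω₁ s).1 hs
  rw [Filter.mem_map]
  haveI := hE
  haveI : FiniteDimensional K (E.map e.toAlgHom) :=
    LinearEquiv.finiteDimensional (E.equivMap e.toAlgHom).toLinearEquiv
  have ho : ((E.map e.toAlgHom).fixingSubgroup : Set (Ω₂ ≃ₐ[K] Ω₂)) ∈ nhds (1 : Ω₂ ≃ₐ[K] Ω₂) :=
    (IntermediateField.fixingSubgroup_isOpen (E.map e.toAlgHom)).mem_nhds
      (E.map e.toAlgHom).fixingSubgroup.one_mem
  refine Filter.mem_of_superset ho fun τ hτ => hEs ?_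
  show cj e τ ∈ E.fixingSubgroup
  rw [IntermediateField.mem_fixingSubgroup_iff]
  intro x hx
  have hτ' : τ ∈ (E.map e.toAlgHom).fixingSubgroup := hτ
  rw [IntermediateField.mem_fixingSubgroup_iff] at hτ'
  have h1 := hτ' (e x) ⟨x, hx, rfl⟩
  rw [cj_apply, h1, AlgEquiv.symm_apply_apply]

end conj

section real

/-- the Galois group of the separable closure of `L` has at most two elements -/
def TwoAut (L : Type) [Field L] : Prop :=
  ∃ s : Sep L ≃ₐ[L] Sep L, (∀ x, s (s x) = x) ∧ ∀ τ : Sep L ≃ₐ[L] Sep L, τ = 1 ∨ τ = s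

theorem twoAut_of_real {L : Type} [Field L] (φ : L ≃+* ℝ) : TwoAut L := by
  letI a1 : Algebra L ℝ := φ.toRingHom.toAlgebra
  letI a2 : Algebra L ℂ := ((algebraMap ℝ ℂ).comp φ.toRingHom).toAlgebra
  haveI t1 : IsScalarTower L ℝ ℂ := IsScalarTower.of_algebraMap_eq fun _ => rfl
  haveI : CharZero L := by
    refine ⟨fun m n h => ?_⟩
    have h1 := congrArg φ h
    rw [map_natCast, map_natCast] at h1
    exact Nat.cast_injective h1
  haveI : Algebra.IsAlgebraic L ℝ := by
    refine ⟨fun x => ?_⟩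
    have h1 : x = algebraMap L ℝ (φ.symm x) := (φ.apply_symm_apply x).symm
    rw [h1]
    exact isAlgebraic_algebraMap _
  haveI : Algebra.IsAlgebraic L ℂ := Algebra.IsAlgebraic.trans L ℝ ℂ
  haveI : IsSepClosure L ℂ := ⟨inferInstance, inferInstance⟩
  let e : Sep L ≃ₐ[L] ℂ := IsSepClosure.equiv L (Sep L) ℂ
  let cl : ℂ ≃ₐ[L] ℂ := Complex.conjAe.restrictScalars L
  refine ⟨(e.trans cl).trans e.symm, fun x => ?_, fun τ => ?_⟩
  · have : ∀ z, cl (cl z) = z := fun z => Complex.conj_conj z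
    simp [this]
  · let τ' : ℂ ≃ₐ[L] ℂ := (e.symm.trans τ).trans e
    have hR : ∀ r : ℝ, τ' (r : ℂ) = (r : ℂ) := by
      intro r
      have h1 : (r : ℂ) = algebraMap L ℂ (φ.symm r) := by
        show (r : ℂ) = ((φ (φ.symm r) : ℝ) : ℂ)
        rw [φ.apply_symm_apply]
      rw [h1, τ'.commutes]
    let τR : ℂ →ₐ[ℝ] ℂ := { (τ' : ℂ →+* ℂ) with commutes' := hR }
    have hτ : ∀ x, τ x = e.symm (τR (e x)) := by
      intro x
      show τ x = e.symm (e (τ (e.symm (e x))))
      rw [AlgEquiv.symm_apply_apply, AlgEquiv.symm_apply_apply]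
    rcases Complex.real_algHom_eq_id_or_conj τR with h | h
    · left
      refine AlgEquiv.ext fun x => ?_
      rw [hτ, h]
      simp
    · right
      refine AlgEquiv.ext fun x => ?_
      rw [hτ, h]
      rfl

theorem twoAut_of_complex {L : Type} [Field L] (φ : L ≃+* ℂ) : TwoAut L := by
  haveI : IsSepClosed L := by
    haveI : IsAlgClosed L := IsAlgClosed.of_ringEquiv ℂ L φ.symm
    infer_instance
  refine ⟨1, fun x => rfl, fun τ => Or.inl ?_⟩
  refine AlgEquiv.ext fun x => ?_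
  obtain ⟨y, rfl⟩ := IsSepClosed.algebraMap_surjective L (Sep L) x
  rw [τ.commutes]
  rfl

theorem twoAut {K : Type} [Field K] [NumberField K] (v : InfinitePlace K) : TwoAut v.Completion := by
  rcases v.isReal_or_isComplex with h | h
  · exact twoAut_of_real (InfinitePlace.Completion.ringEquivRealOfIsReal h)
  · exact twoAut_of_complex (InfinitePlace.Completion.ringEquivComplexOfIsComplex h)

end real

section realtriv

variable {F : Type} [Field F] {W : WeierstrassCurve F} {K : Type} [Field K] [Algebra F K]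

/-- twice a cocycle is trivial over a field with at most two automorphisms -/
theorem real_triv {L : Type} [Field L] [Algebra K L] [Algebra F L] [IsScalarTower F K L]
    (hL : TwoAut L) (c d : (Sep K ≃ₐ[K] Sep K) → Pt W (Sep K))
    (h : ∀ σ, 2 • d σ = c σ) (h3 : ∀ σ τ, d (σ * τ) = d σ + act W (rs F σ) (d τ)) :
    LocTriv W L (Sep L) c := by
  obtain ⟨s, hs, hτ⟩ := hL
  let ι : Sep K →ₐ[K] Sep L := IsSepClosed.lift
  have hres : ∀ τ : Sep L ≃ₐ[L] Sep L, ∃ σ : Sep K ≃ₐ[K] Sep K, ∀ x, τ (ι x) = ι (σ x) := by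
    intro τ
    let : Algebra (Sep K) (Sep L) := ι.toRingHom.toAlgebra
    have : IsScalarTower K (Sep K) (Sep L) :=
      IsScalarTower.of_algebraMap_eq' ι.comp_algebraMap.symm
    refine ⟨Normal.algHomEquivAut K (Sep L) (Sep K) ((τ.toAlgHom.restrictScalars K).comp ι),
      fun z => ?_⟩
    have h := (Normal.algHomEquivAut K (Sep L) (Sep K)).left_inv
      ((τ.toAlgHom.restrictScalars K).comp ι)
    exact (congrArg (fun g => g z) h).symm
  obtain ⟨σ₀, hσ₀⟩ := hres s
  have hid : ∀ x : Pt W (Sep K), act W (rs F (1 : Sep K ≃ₐ[K] Sep K)) x = x := by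
    intro x
    rcases x with _ | ⟨x, y, h⟩
    · rfl
    · rfl
  have hid' : ∀ x : Pt W (Sep L), act W (rs F (1 : Sep L ≃ₐ[L] Sep L)) x = x := by
    intro x
    rcases x with _ | ⟨x, y, h⟩
    · rfl
    · rfl
  have d1 : d 1 = 0 := by
    have h4 := h3 1 1
    rw [mul_one, hid] at h4
    exact left_eq_add.1 h4
  have hinv : σ₀ * σ₀ = 1 := by
    refine AlgEquiv.ext fun x => ?_
    apply ι.injective
    show ι (σ₀ (σ₀ x)) = ι x
    rw [← hσ₀, ← hσ₀, hs]
  have hd : act W (rs F σ₀) (d σ₀) = - d σ₀ := by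
    have h4 := h3 σ₀ σ₀
    rw [hinv, d1] at h4
    exact (neg_eq_of_add_eq_zero_right h4.symm).symm
  refine ⟨ι, -(act W (ι.restrictScalars F) (d σ₀)), fun τ σ hx => ?_⟩
  rcases hτ τ with rfl | rfl
  · have e1 : σ = 1 := by
      refine AlgEquiv.ext fun x => ?_
      apply ι.injective
      exact (hx x).symm
    rw [e1, ← h, d1, smul_zero, map_zero, hid', sub_self]
  · have e1 : σ = σ₀ := by
      refine AlgEquiv.ext fun x => ?_
      exact ι.injective ((hx x).symm.trans (hσ₀ x))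
    have e2 : (rs F τ).comp (ι.restrictScalars F) = (ι.restrictScalars F).comp (rs F σ₀) :=
      AlgHom.ext fun x => hσ₀ x
    rw [e1, ← h, map_neg, act_act, e2, ← act_act, hd, map_neg, map_nsmul, two_nsmul]
    abel

end realtriv

/-! ### The passage to the algebraic closure -/

section alg

variable {K : Type} [Field K] [CharZero K] (W : WeierstrassCurve K)

/-- the separable closure is the algebraic closure -/
noncomputable def eC (K : Type) [Field K] [CharZero K] : Sep K ≃ₐ[K] AlgebraicClosure K :=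
  haveI : IsSepClosure K (AlgebraicClosure K) := ⟨inferInstance, inferInstance⟩
  IsSepClosure.equiv K (Sep K) (AlgebraicClosure K)

/-- the transported cochain -/
noncomputable def up (f : (Sep K ≃ₐ[K] Sep K) → Pt W (Sep K)) : Pool.Agent.TH841.SH.D.Coch W :=
  fun τ => act W (eC K).toAlgHom (f (cj (eC K) τ))

variable {W}

lemma up_coc {f : (Sep K ≃ₐ[K] Sep K) → Pt W (Sep K)} (hf : IsCoc W f) :
    Pool.Agent.TH841.SH.D.IsCoc W (up W f) := by
  constructor
  · exact (hf.lc.comp_continuous (cont_cj (eC K))).comp (act W (eC K).toAlgHom)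
  · intro σ τ
    show act W (eC K).toAlgHom (f (cj (eC K) (σ * τ))) = act W (eC K).toAlgHom (f (cj (eC K) σ)) +
      act W σ.toAlgHom (act W (eC K).toAlgHom (f (cj (eC K) τ)))
    rw [map_mul, hf.mul, map_add, act_act, act_act]
    congr 2
    congr 1
    refine AlgHom.ext fun x => ?_
    exact e_cj (eC K) σ x

/-- two embeddings of the algebraic closure of `K` differ by an automorphism -/
lemma emb_conj {L : Type} [Field L] [Algebra K L] (ι ι' : AlgebraicClosure K →ₐ[K] AlgebraicClosure L) :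
    ∃ ρ : AlgebraicClosure K ≃ₐ[K] AlgebraicClosure K, ∀ z, ι' z = ι (ρ z) := by
  let : Algebra (AlgebraicClosure K) (AlgebraicClosure L) := ι.toRingHom.toAlgebra
  have : IsScalarTower K (AlgebraicClosure K) (AlgebraicClosure L) :=
    IsScalarTower.of_algebraMap_eq' ι.comp_algebraMap.symm
  refine ⟨Normal.algHomEquivAut K (AlgebraicClosure L) (AlgebraicClosure K) ι', fun z => ?_⟩
  have h := (Normal.algHomEquivAut K (AlgebraicClosure L) (AlgebraicClosure K)).left_inv ι'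
  exact (congrArg (fun g => g z) h).symm

lemma loc_all {L : Type} [Field L] [Algebra K L]
    {g : (AlgebraicClosure K ≃ₐ[K] AlgebraicClosure K) → Pt W (AlgebraicClosure K)}
    (hg : ∀ σ τ, g (σ * τ) = g σ + act W σ.toAlgHom (g τ))
    (ι : AlgebraicClosure K →ₐ[K] AlgebraicClosure L)
    (P : Pt W (AlgebraicClosure L))
    (h : ∀ (τ : AlgebraicClosure L ≃ₐ[L] AlgebraicClosure L)
      (σ : AlgebraicClosure K ≃ₐ[K] AlgebraicClosure K),
      (∀ x, τ (ι x) = ι (σ x)) → act W ι (g σ) = act W (τ.toAlgHom.restrictScalars K) P - P)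
    (ι' : AlgebraicClosure K →ₐ[K] AlgebraicClosure L) :
    ∃ P' : Pt W (AlgebraicClosure L), ∀ (τ : AlgebraicClosure L ≃ₐ[L] AlgebraicClosure L)
      (σ : AlgebraicClosure K ≃ₐ[K] AlgebraicClosure K),
      (∀ x, τ (ι' x) = ι' (σ x)) → act W ι' (g σ) = act W (τ.toAlgHom.restrictScalars K) P' - P' := by
  obtain ⟨ρ, hρ⟩ := emb_conj ι ι'
  have hι : ∀ Q : Pt W (AlgebraicClosure K), act W ι' Q = act W ι (act W ρ.toAlgHom Q) := by
    intro Q
    rw [act_act]
    have e0 : ι' = ι.comp ρ.toAlgHom := AlgHom.ext fun z => hρ z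
    rw [e0]
  refine ⟨P + act W ι (g ρ), fun τ σ hτσ => ?_⟩
  have hc : ∀ x, τ (ι x) = ι ((ρ * σ * ρ⁻¹) x) := by
    intro z
    have h1 := hτσ (ρ⁻¹ z)
    rw [hρ, hρ] at h1
    have h2 : ρ (ρ⁻¹ z) = z := by
      change (ρ * ρ⁻¹) z = z
      rw [mul_inv_cancel]
      rfl
    rw [h2] at h1
    exact h1
  have h3 := h τ _ hc
  have e1 : g (ρ * σ) = g ρ + act W ρ.toAlgHom (g σ) := hg ρ σ
  have e2 : g (ρ * σ) = g (ρ * σ * ρ⁻¹) + act W (ρ * σ * ρ⁻¹).toAlgHom (g ρ) := by
    have := hg (ρ * σ * ρ⁻¹) ρ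
    rw [inv_mul_cancel_right] at this
    exact this
  have e3 : act W ρ.toAlgHom (g σ) = g (ρ * σ * ρ⁻¹) + act W (ρ * σ * ρ⁻¹).toAlgHom (g ρ) - g ρ := by
    rw [← e2, e1, add_sub_cancel_left]
  have e4 : act W ι (act W (ρ * σ * ρ⁻¹).toAlgHom (g ρ)) =
      act W (τ.toAlgHom.restrictScalars K) (act W ι (g ρ)) := by
    rw [act_act, act_act]
    have e0 : ι.comp (ρ * σ * ρ⁻¹).toAlgHom = (τ.toAlgHom.restrictScalars K).comp ι :=
      AlgHom.ext fun x => (hc x).symm
    rw [e0]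
  rw [hι, e3, map_sub, map_add, h3, e4, map_add]
  abel

lemma up_loc {L : Type} [Field L] [CharZero L] [Algebra K L]
    {f : (Sep K ≃ₐ[K] Sep K) → Pt W (Sep K)} (hf : IsCoc W f) (h : LocTriv W L (Sep L) f) :
    Pool.Agent.TH841.SH.D.LocTriv W L (up W f) := by
  obtain ⟨ι, P, hP⟩ := h
  let ι₂ : AlgebraicClosure K →ₐ[K] AlgebraicClosure L :=
    (((eC L).toAlgHom.restrictScalars K).comp ι).comp (eC K).symm.toAlgHom
  have key : ∀ (τ : AlgebraicClosure L ≃ₐ[L] AlgebraicClosure L)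
      (σ : AlgebraicClosure K ≃ₐ[K] AlgebraicClosure K), (∀ x, τ (ι₂ x) = ι₂ (σ x)) →
      act W ι₂ (act W (eC K).toAlgHom (f (cj (eC K) σ))) =
        act W (τ.toAlgHom.restrictScalars K) (act W ((eC L).toAlgHom.restrictScalars K) P) -
          act W ((eC L).toAlgHom.restrictScalars K) P := by
    intro τ σ hτ
    have h1 := hP (cj (eC L) τ) (cj (eC K) σ) (fun x => by
      apply (eC L).injective
      rw [e_cj]
      have h2 := hτ (eC K x)
      have h3 : ∀ y, ι₂ y = eC L (ι ((eC K).symm y)) := fun y => rfl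
      rw [h3, h3, AlgEquiv.symm_apply_apply] at h2
      exact h2)
    have e1 : ι₂.comp (eC K).toAlgHom = ((eC L).toAlgHom.restrictScalars K).comp
        (ι.restrictScalars K) := by
      refine AlgHom.ext fun x => ?_
      show eC L (ι ((eC K).symm (eC K x))) = eC L (ι x)
      rw [AlgEquiv.symm_apply_apply]
    have e2 : ((eC L).toAlgHom.restrictScalars K).comp (rs K (cj (eC L) τ)) =
        (τ.toAlgHom.restrictScalars K).comp ((eC L).toAlgHom.restrictScalars K) :=
      AlgHom.ext fun x => e_cj (eC L) τ x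
    rw [act_act, e1, ← act_act, h1, map_sub, act_act, e2, ← act_act]
  exact loc_all (g := fun τ => act W (eC K).toAlgHom (f (cj (eC K) τ))) (up_coc hf).2 ι₂ _ key

end alg

section main

variable {K : Type} [Field K] [NumberField K] {W : WeierstrassCurve K}

/-- the vanishing of the `p`-primary part of the Tate-Shafarevich group, for cocycles over the separable
closure -/
theorem bridge {p : ℕ} (h : ∀ (k : ℕ) (x : Pool.Agent.TH841.NF.D.Sha W), p ^ k • x = 0 → x = 0)
    (f : (Sep K ≃ₐ[K] Sep K) → Pt W (Sep K)) (hf : IsCoc W f)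
    (hv : ∀ v : HeightOneSpectrum (𝓞 K), LocTriv W (Comp (𝓞 K) K v) (Sep (Comp (𝓞 K) K v)) f)
    (hw : ∀ v : InfinitePlace K, LocTriv W v.Completion (Sep v.Completion) f)
    (hn : ∃ n : ℕ, ∀ σ, p ^ n • f σ = 0) :
    ∃ Q : Pt W (Sep K), ∀ σ, f σ = act W (rs K σ) Q - Q := by
  have hmem : up W f ∈ Pool.Agent.TH841.NF.D.shaCoc W := by
    refine ⟨up_coc hf, fun v => ?_, fun v => ?_⟩
    · haveI : CharZero (Comp (𝓞 K) K v) :=
        charZero_of_injective_algebraMap (algebraMap K (Comp (𝓞 K) K v)).injective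
      exact up_loc (L := Comp (𝓞 K) K v) hf (hv v)
    · haveI : CharZero v.Completion :=
        charZero_of_injective_algebraMap (algebraMap K v.Completion).injective
      exact up_loc hf (hw v)
  obtain ⟨n, hn⟩ := hn
  let s : Pool.Agent.TH841.NF.D.Sha W := QuotientAddGroup.mk ⟨up W f, hmem⟩
  have hs : p ^ n • s = 0 := by
    have e1 : p ^ n • (⟨up W f, hmem⟩ : Pool.Agent.TH841.NF.D.shaCoc W) = 0 := by
      apply Subtype.ext
      funext σ
      show p ^ n • (act W (eC K).toAlgHom (f (cj (eC K) σ))) = 0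
      rw [← map_nsmul, hn, map_zero]
    show p ^ n • (QuotientAddGroup.mk (⟨up W f, hmem⟩ : Pool.Agent.TH841.NF.D.shaCoc W) :
      Pool.Agent.TH841.NF.D.Sha W) = 0
    have e2 : p ^ n • (QuotientAddGroup.mk (⟨up W f, hmem⟩ : Pool.Agent.TH841.NF.D.shaCoc W) :
      Pool.Agent.TH841.NF.D.Sha W) = QuotientAddGroup.mk
        (p ^ n • (⟨up W f, hmem⟩ : Pool.Agent.TH841.NF.D.shaCoc W)) := rfl
    rw [e2, e1]
    rfl
  have hs0 := h n s hs
  have hs1 := (QuotientAddGroup.eq_zero_iff _).1 hs0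
  rw [AddSubgroup.mem_addSubgroupOf] at hs1
  obtain ⟨P₀, hP₀⟩ := hs1
  obtain ⟨P, hP⟩ : ∃ P : Pt W (AlgebraicClosure K), ∀ σ : AlgebraicClosure K ≃ₐ[K] AlgebraicClosure K,
      act W (eC K).toAlgHom (f (cj (eC K) σ)) = act W σ.toAlgHom P - P := ⟨P₀, hP₀⟩
  refine ⟨act W (eC K).symm.toAlgHom P, fun σ => ?_⟩
  have h2 : cj (eC K) (cj (eC K).symm σ) = σ := by
    refine AlgEquiv.ext fun x => ?_
    show (eC K).symm ((eC K) (σ ((eC K).symm (eC K x)))) = σ x
    rw [AlgEquiv.symm_apply_apply, AlgEquiv.symm_apply_apply]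
  have h1 := hP (cj (eC K).symm σ)
  rw [h2] at h1
  have h3 : act W (eC K).symm.toAlgHom (act W (eC K).toAlgHom (f σ)) = f σ := by
    rw [act_act]
    have h4 : ((eC K).symm.toAlgHom).comp (eC K).toAlgHom = AlgHom.id K (Sep K) :=
      AlgHom.ext fun x => (eC K).symm_apply_apply x
    rw [h4]
    generalize f σ = R
    rcases R with _ | ⟨x, y, h⟩
    · rfl
    · rfl
  have h6 : ((eC K).symm.toAlgHom).comp (cj (eC K).symm σ).toAlgHom =
      (rs K σ).comp (eC K).symm.toAlgHom := by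
    refine AlgHom.ext fun x => ?_
    show (eC K).symm (eC K (σ ((eC K).symm x))) = σ ((eC K).symm x)
    rw [AlgEquiv.symm_apply_apply]
  rw [← h3, h1, map_sub, act_act, h6, ← act_act]

end main

end Pool.Agent.D0H50.BK
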