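import Pool.Agent.TH115.GD.Defs

/-!
# The Bloch-Kato Selmer group `H¹_f(F, V_p E ⊗ M)` for an integral representation `M` of `Gal(K / F)`

`K / F` is a finite Galois extension of number fields, `E` is an elliptic curve over `F` and `M = ℤ ^ g`
with the action of `Gal(K / F)` by a homomorphism `ρ` to `GL_g(ℤ)`. `Sep K` is an algebraic closure of `K`
and of `F`, and `Pt W L` is the group `E(L)`.

The elements of `V_p E` are the sequences `x_0, x_1, ...` of points over `Sep K` of `p`-power order with
`p x_(n+1) = x_n`: the element `x` of `V_p E = T_p E ⊗ ℚ_p` corresponds to the sequence of the classes of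
`p⁻ⁿ x` in `V_p E / T_p E = E[p^∞]`.

If `Y` is a smooth projective variety over `F` of dimension `2 i` whose motive with rational coefficients
over `K` is a sum of Tate motives (for instance a form of a projective space, of a quadric, of a flag
variety, of a toric variety or of a rational surface which is split by `K`), if `M` is `CH^i(Y_K)` modulo
torsion and `X = E × Y`, then `H^(2 i + 1)(X, ℚ_p(i + 1)) = V_p E ⊗ M` and
`CH^(i + 1)(X)_0 ⊗ ℚ = (E(K) ⊗ M ⊗ ℚ)^Gal(K / F)`.

(helper50)
-/

set_option autoImplicit false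
set_option linter.all false

open IsDedekindDomain NumberField WeierstrassCurve WeierstrassCurve.Affine Pool.Agent.TH115.GD
open scoped Classical

namespace Pool.Agent.D0H50.BK

section defs

variable {F : Type} [Field F] (W : WeierstrassCurve F) {K : Type} [Field K] [Algebra F K]

/-- `x` is an element of `V_p E`: a sequence of points of `p`-power order over the algebraic closure with
`p x_(n+1) = x_n`. -/
def IsV (p : ℕ) (x : ℕ → Pt W (Sep K)) : Prop :=
  ∀ n, p • x (n + 1) = x n ∧ ∃ m : ℕ, p ^ m • x n = 0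

/-- `c` is a continuous cocycle of the absolute Galois group of `F` with values in `V_p E ⊗ M`,
`M = ℤ ^ g` with the action `ρ` of `Gal(K / F)`: `c σ i` is the `i`-th coordinate of `c(σ)`, it is in
`V_p E`, its components are locally constant functions of `σ`, and `c(σ τ) = c(σ) + σ c(τ)` where `σ` acts by
its action on the points and by the matrix `ρ(σ | K)`. -/
structure IsCocycle [Normal F K] (p : ℕ) {g : ℕ} (ρ : (K ≃ₐ[F] K) →* GL (Fin g) ℤ)
    (c : (Sep K ≃ₐ[F] Sep K) → Fin g → ℕ → Pt W (Sep K)) : Prop where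
  lc : ∀ i n, IsLocallyConstant fun σ => c σ i n
  val : ∀ σ i, IsV W p (c σ i)
  mul : ∀ σ τ i n, c (σ * τ) i n = c σ i n +
    ∑ j, (ρ (AlgEquiv.restrictNormalHom K σ) : Matrix (Fin g) (Fin g) ℤ) i j •
      act W (rs F σ) (c τ j n)

/-- `c` is a coboundary: `c(σ) = σ x - x` for an element `x` of `V_p E ⊗ M`. -/
def IsCoboundary [Normal F K] (p : ℕ) {g : ℕ} (ρ : (K ≃ₐ[F] K) →* GL (Fin g) ℤ)
    (c : (Sep K ≃ₐ[F] Sep K) → Fin g → ℕ → Pt W (Sep K)) : Prop :=
  ∃ x : Fin g → ℕ → Pt W (Sep K), (∀ i, IsV W p (x i)) ∧ ∀ σ i n,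
    c σ i n = ∑ j, (ρ (AlgEquiv.restrictNormalHom K σ) : Matrix (Fin g) (Fin g) ℤ) i j •
      act W (rs F σ) (x j n) - x i n

/-- The restriction of the cocycle `b` of the absolute Galois group of `K` with values in `V_p E` to
the extension `L` of `K` is in the image of the Kummer map `E(L) ⊗ ℚ_p → H¹(L, V_p E)`: there are an
embedding `ι` of the algebraic closures and points `Q_n` over the algebraic closure of `L` with
`p Q_(n+1) = Q_n` such that the components of the restriction of `b` are `τ Q_n - Q_n`. -/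
def Kummer (p : ℕ) (L : Type) [Field L] [Algebra K L] [Algebra F L] [IsScalarTower F K L]
    (b : (Sep K ≃ₐ[K] Sep K) → ℕ → Pt W (Sep K)) : Prop :=
  ∃ (ι : Sep K →ₐ[K] Sep L) (Q : ℕ → Pt W (Sep L)), (∀ n, p • Q (n + 1) = Q n) ∧
    ∀ (τ : Sep L ≃ₐ[L] Sep L) (σ : Sep K ≃ₐ[K] Sep K), (∀ x, τ (ι x) = ι (σ x)) →
      ∀ n, act W (ι.restrictScalars F) (b σ n) = act W (rs F τ) (Q n) - Q n

/-- The Bloch-Kato Selmer group `H¹_f(F, V_p E ⊗ M)` is zero. The local conditions are imposed over the
completions `K_v` of `K` at all finite places `v`, where `V_p E ⊗ M` is the sum of `g` copies of `V_p E` and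
`H¹_f(K_v, V_p E)` is the image of `E(K_v) ⊗ ℚ_p` (Bloch and Kato, Example 3.11, for `v ∣ p`; it is zero for
the other `v`). As the coefficients have characteristic zero, a class over a completion of `F` is in `H¹_f`
if and only if its restrictions to the completions of `K` are. -/
def SelmerZero [NumberField K] [Normal F K] (p : ℕ) {g : ℕ} (ρ : (K ≃ₐ[F] K) →* GL (Fin g) ℤ) :
    Prop :=
  ∀ c : (Sep K ≃ₐ[F] Sep K) → Fin g → ℕ → Pt W (Sep K), IsCocycle W p ρ c →
    (∀ (v : HeightOneSpectrum (𝓞 K)) (i : Fin g), Kummer W p (Comp (𝓞 K) K v) fun σ n =>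
      c (σ.restrictScalars F) i n) → IsCoboundary W p ρ c

end defs

end Pool.Agent.D0H50.BK
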