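import Pool.Agent.D0H50.BK.Abs
import Pool.Agent.D0H50.BK.Def

/-!
# The Bloch-Kato Selmer groups of `V_p E ⊗ M` for integral representations `M` of `Gal(K / F)`

(helper50)
-/

set_option autoImplicit false
set_option linter.all false

open IsDedekindDomain NumberField WeierstrassCurve WeierstrassCurve.Affine Pool.Agent.TH115.GD
open scoped Classical

namespace Pool.Agent.D0H50.BK

section defs

variable {F : Type} [Field F] (W : WeierstrassCurve F)

/-- the `p`-primary part of the Tate-Shafarevich group over `K` is zero -/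
def ShaZero (K : Type) [Field K] [NumberField K] [Algebra F K] (p : ℕ) : Prop :=
  ∀ f : (Sep K ≃ₐ[K] Sep K) → Pt W (Sep K), IsCoc W f →
    (∀ v : HeightOneSpectrum (𝓞 K), LocTriv W (Comp (𝓞 K) K v) (Sep (Comp (𝓞 K) K v)) f) →
    (∃ (n : ℕ) (Q : Pt W (Sep K)), ∀ σ, p ^ n • f σ = act W (rs F σ) Q - Q) →
    ∃ Q : Pt W (Sep K), ∀ σ, f σ = act W (rs F σ) Q - Q

end defs

section main

variable {F : Type} [Field F] (W : WeierstrassCurve F) {K : Type} [Field K] [Algebra F K]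

lemma act_some {Ω Ω' : Type} [Field Ω] [Field Ω'] [Algebra F Ω] [Algebra F Ω'] (φ : Ω →ₐ[F] Ω')
    {x y : Ω} (h : (W.baseChange Ω).toAffine.Nonsingular x y) :
    act W φ (.some x y h) =
      .some (φ x) (φ y) ((Affine.baseChange_nonsingular W φ.injective ..).mpr h) := rfl

lemma act_act {Ω Ω' Ω'' : Type} [Field Ω] [Field Ω'] [Field Ω''] [Algebra F Ω] [Algebra F Ω']
    [Algebra F Ω''] (φ : Ω →ₐ[F] Ω') (ψ : Ω' →ₐ[F] Ω'') (P : Pt W Ω) :
    act W ψ (act W φ P) = act W (ψ.comp φ) P := by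
  rcases P with _ | ⟨x, y, h⟩
  · rfl
  · rfl

/-- the fixed points in `E(Sep K)` are the points of `E(K)` -/
lemma exists_rat (P : Pt W (Sep K)) (hP : ∀ σ : Sep K ≃ₐ[K] Sep K, act W (rs F σ) P = P) :
    ∃ R : Pt W K, act W (incl F K (Sep K)) R = P := by
  rcases P with _ | ⟨X, Y, hXY⟩
  · exact ⟨0, rfl⟩
  · have h1 : ∀ σ : Sep K ≃ₐ[K] Sep K, σ X = X ∧ σ Y = Y := by
      intro σ
      exact (Affine.Point.some.injEq _ _ _ _ _ _).mp (hP σ)
    obtain ⟨x, hx⟩ := IntermediateField.mem_bot.1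
      ((InfiniteGalois.mem_bot_iff_fixed (k := K) X).2 fun σ => (h1 σ).1)
    obtain ⟨y, hy⟩ := IntermediateField.mem_bot.1
      ((InfiniteGalois.mem_bot_iff_fixed (k := K) Y).2 fun σ => (h1 σ).2)
    subst hx hy
    have hn : (W.baseChange K).toAffine.Nonsingular x y :=
      (Affine.baseChange_nonsingular W (f := IsScalarTower.toAlgHom F K (Sep K))
        (IsScalarTower.toAlgHom F K (Sep K)).injective x y).mp hXY
    exact ⟨.some x y hn, rfl⟩

lemma incl_inj : Function.Injective (act W (incl F K (Sep K))) :=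
  Affine.Point.map_injective (W' := W.toAffine) (incl F K (Sep K))

lemma act_incl (σ : Sep K ≃ₐ[K] Sep K) (R : Pt W K) :
    act W (rs F σ) (act W (incl F K (Sep K)) R) = act W (incl F K (Sep K)) R := by
  rcases R with _ | ⟨x, y, h⟩
  · rfl
  · exact (Affine.Point.some.injEq _ _ _ _ _ _).mpr ⟨σ.commutes x, σ.commutes y⟩

/-- multiplication by `p` is bijective on `E(K)` -/
structure UDiv (K : Type) [Field K] [Algebra F K] (p : ℕ) : Prop where
  div : ∀ P : Pt W K, ∃ Q : Pt W K, p • Q = P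
  inj : ∀ P : Pt W K, p • P = 0 → P = 0

variable {W} in
lemma UDiv.div_pow {p : ℕ} (h : UDiv W K p) (m : ℕ) (P : Pt W K) : ∃ Q : Pt W K, p ^ m • Q = P := by
  induction m with
  | zero => exact ⟨P, by simp⟩
  | succ m ih =>
    obtain ⟨Q, hQ⟩ := ih
    obtain ⟨R, hR⟩ := h.div Q
    exact ⟨R, by rw [pow_succ, mul_smul, hR, hQ]⟩

variable {W} in
lemma UDiv.inj_pow {p : ℕ} (h : UDiv W K p) (m : ℕ) (P : Pt W K) (hP : p ^ m • P = 0) : P = 0 := by
  induction m with
  | zero => simpa using hP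
  | succ m ih =>
    apply ih
    apply h.inj
    rw [smul_smul, ← pow_succ', hP]

variable {W} in
/-- no fixed points of `p`-power order in `E(Sep K)` except zero -/
lemma UDiv.fix_zero {p : ℕ} (h : UDiv W K p) (P : Pt W (Sep K)) (hp : ∃ m : ℕ, p ^ m • P = 0)
    (hP : ∀ σ : Sep K ≃ₐ[K] Sep K, act W (rs F σ) P = P) : P = 0 := by
  obtain ⟨R, rfl⟩ := exists_rat W P hP
  obtain ⟨m, hm⟩ := hp
  rw [← map_nsmul] at hm
  have h1 : p ^ m • R = 0 := incl_inj W (by rw [hm, map_zero])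
  rw [h.inj_pow m R h1, map_zero]

lemma pow_chain {A : Type} [AddCommGroup A] {p : ℕ} {x : ℕ → A} (h : ∀ n, p • x (n + 1) = x n)
    (n k : ℕ) : p ^ k • x (n + k) = x n := by
  induction k with
  | zero => simp
  | succ k ih => rw [pow_succ, mul_smul, ← add_assoc, h, ih]

/-- a locally constant function on the Galois group with values of `p`-power order is bounded -/
lemma bdd_of_lc {G A : Type} [TopologicalSpace G] [CompactSpace G] [AddCommGroup A] {p : ℕ}
    {f : G → A} (hf : IsLocallyConstant f) (h : ∀ σ, ∃ m : ℕ, p ^ m • f σ = 0) :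
    ∃ m : ℕ, ∀ σ, p ^ m • f σ = 0 := by
  have hfin : (Set.range f).Finite := hf.range_finite
  choose m hm using h
  have hex : ∀ y ∈ Set.range f, ∃ k : ℕ, p ^ k • y = 0 := by
    rintro y ⟨σ, rfl⟩
    exact ⟨m σ, hm σ⟩
  choose! k hk using hex
  obtain ⟨K, hK⟩ := (hfin.image k).bddAbove
  refine ⟨K, fun σ => ?_⟩
  have h1 := hk _ (Set.mem_range_self σ)
  have h2 : k (f σ) ≤ K := hK ⟨_, Set.mem_range_self σ, rfl⟩
  rw [← Nat.sub_add_cancel h2, pow_add, mul_smul, h1, smul_zero]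

/-- `H^1_f(K, V_p E) = 0` -/
theorem h1f [NumberField K] {p : ℕ} (h : UDiv W K p) (hS : ShaZero W K p)
    (b : (Sep K ≃ₐ[K] Sep K) → ℕ → Pt W (Sep K))
    (lc : ∀ n, IsLocallyConstant fun σ => b σ n) (val : ∀ σ, IsV W p (b σ))
    (mul : ∀ σ τ n, b (σ * τ) n = b σ n + act W (rs F σ) (b τ n))
    (loc : ∀ v : HeightOneSpectrum (𝓞 K), Kummer W p (Comp (𝓞 K) K v) b) :
    ∃ x : ℕ → Pt W (Sep K), IsV W p x ∧ ∀ σ n, b σ n = act W (rs F σ) (x n) - x n := by
  have h1 : ∀ n, ∃ m : ℕ, ∀ σ, p ^ m • b σ n = 0 := fun n =>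
    bdd_of_lc (lc n) fun σ => (val σ n).2
  have h2 : ∀ n, ∃ P : Pt W (Sep K), (∃ m : ℕ, p ^ m • P = 0) ∧
      ∀ σ, b σ n = act W (rs F σ) P - P := by
    intro n
    obtain ⟨m, hm⟩ := h1 n
    obtain ⟨P, hP⟩ := hS (fun σ => b σ n) ⟨lc n, fun σ τ => mul σ τ n⟩ (fun v => by
      obtain ⟨ι, Q, -, hQ⟩ := loc v
      exact ⟨ι, Q n, fun τ σ hσ => hQ τ σ hσ n⟩) ⟨m, 0, fun σ => by
        rw [hm, map_zero, sub_zero]⟩
    obtain ⟨R, hR⟩ := exists_rat W (p ^ m • P) (fun σ => by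
      have h5 := hm σ
      rw [hP σ, nsmul_sub, sub_eq_zero] at h5
      rw [map_nsmul, h5])
    obtain ⟨R', hR'⟩ := h.div_pow m R
    refine ⟨P - act W (incl F K (Sep K)) R', ⟨m, ?_⟩, fun σ => ?_⟩
    · rw [nsmul_sub, ← map_nsmul, hR', hR, sub_self]
    · rw [hP, map_sub, act_incl]
      abel
  choose x hx0 hx using h2
  refine ⟨x, fun n => ⟨?_, hx0 n⟩, fun σ n => hx n σ⟩
  have h3 : p • x (n + 1) - x n = 0 := by
    refine h.fix_zero _ ?_ fun σ => ?_
    · obtain ⟨m, hm⟩ := hx0 (n + 1)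
      exact (tor p _).sub_mem (x := p • x (n + 1)) ⟨m, by rw [smul_comm, hm, smul_zero]⟩ (hx0 n)
    · have h4 := hx (n + 1) σ
      have h5 := hx n σ
      rw [← (val σ n).1, h4] at h5
      rw [map_sub, map_nsmul, ← sub_eq_zero]
      rw [nsmul_sub] at h5
      have h6 : p • act W (rs F σ) (x (n + 1)) = act W (rs F σ) (x n) - x n + p • x (n + 1) := by
        rw [← h5]; abel
      rw [h6]; abel
  exact sub_eq_zero.1 h3

/-- The restriction of scalars is continuous. -/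
theorem cont_rs (F K : Type) [Field F] [Field K] [Algebra F K] [CharZero F]
    [Algebra.IsAlgebraic F K] :
    Continuous (AlgEquiv.restrictScalarsHom F : (Sep K ≃ₐ[K] Sep K) →* (Sep K ≃ₐ[F] Sep K)) := by
  haveI : Algebra.IsAlgebraic F (Sep K) := Algebra.IsAlgebraic.trans F K (Sep K)
  apply continuous_of_continuousAt_one
  unfold ContinuousAt
  rw [map_one]
  intro s hs
  obtain ⟨E, hE, hEs⟩ := (krullTopology_mem_nhds_one_iff F (Sep K) s).1 hs
  haveI : Algebra.IsSeparable F E := inferInstance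
  obtain ⟨α, hα⟩ := Field.exists_primitive_element F E
  have ho : (MulAction.stabilizer (Sep K ≃ₐ[K] Sep K) (α : Sep K) : Set (Sep K ≃ₐ[K] Sep K)) ∈
      nhds (1 : Sep K ≃ₐ[K] Sep K) :=
    (stabilizer_isOpen_of_isIntegral (K := K) (α : Sep K)).mem_nhds
      (MulAction.stabilizer (Sep K ≃ₐ[K] Sep K) (α : Sep K)).one_mem
  rw [Filter.mem_map]
  refine Filter.mem_of_superset ho fun τ hτ => hEs ?_
  have hτ' : τ (α : Sep K) = α := hτ
  show (τ.restrictScalars F) ∈ E.fixingSubgroup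
  rw [IntermediateField.mem_fixingSubgroup_iff]
  intro x hx
  -- the two embeddings of `E` agree
  have key : ((τ.restrictScalars F).toAlgHom.comp E.val) = E.val := by
    refine AlgHom.ext fun y => ?_
    have hy : y ∈ (⊤ : IntermediateField F E) := trivial
    rw [← hα] at hy
    refine IntermediateField.adjoin_induction F
      (p := fun y _ => ((τ.restrictScalars F).toAlgHom.comp E.val) y = E.val y) ?_ ?_ ?_ ?_ ?_ hy
    · intro y hy
      rw [Set.mem_singleton_iff] at hy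
      subst hy
      exact hτ'
    · intro y
      rw [AlgHom.commutes, AlgHom.commutes]
    · intro x y _ _ hx hy
      rw [map_add, map_add, hx, hy]
    · intro x _ hx
      rw [map_inv₀, map_inv₀, hx]
    · intro x y _ _ hx hy
      rw [map_mul, map_mul, hx, hy]
  exact DFunLike.congr_fun key ⟨x, hx⟩

/-- `H^1_f(F, V_p E ⊗ M) = 0` -/
theorem selmer_zero [NumberField K] [CharZero F] [Algebra.IsAlgebraic F K] [Normal F K] {p : ℕ}
    (h : UDiv W K p)
    (hS : ShaZero W K p) {g : ℕ} (ρ : (K ≃ₐ[F] K) →* GL (Fin g) ℤ) : SelmerZero W p ρ := by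
  intro c hc hloc
  have hres : ∀ σ : Sep K ≃ₐ[K] Sep K,
      AlgEquiv.restrictNormalHom K (σ.restrictScalars F : Sep K ≃ₐ[F] Sep K) = 1 := by
    intro σ
    refine AlgEquiv.ext fun x => ?_
    apply (algebraMap K (Sep K)).injective
    have h1 := AlgEquiv.restrictNormal_commutes (σ.restrictScalars F : Sep K ≃ₐ[F] Sep K) K x
    refine h1.trans ?_
    exact σ.commutes x
  have hone : ∀ (σ : Sep K ≃ₐ[K] Sep K) (y : Fin g → Pt W (Sep K)) (i : Fin g),
      ∑ j, (ρ (AlgEquiv.restrictNormalHom K (σ.restrictScalars F : Sep K ≃ₐ[F] Sep K)) :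
        Matrix (Fin g) (Fin g) ℤ) i j • act W (rs F (σ.restrictScalars F : Sep K ≃ₐ[F] Sep K)) (y j) =
      act W (rs F σ) (y i) := by
    intro σ y i
    rw [hres, map_one, Finset.sum_eq_single i]
    · rw [Units.val_one, Matrix.one_apply_eq, one_smul]
      rfl
    · intro j _ hj
      rw [Units.val_one, Matrix.one_apply_ne hj.symm, zero_smul]
    · intro h
      exact absurd (Finset.mem_univ i) h
  have h1 : ∀ i, ∃ x : ℕ → Pt W (Sep K), IsV W p x ∧ ∀ (σ : Sep K ≃ₐ[K] Sep K) (n : ℕ),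
      c (σ.restrictScalars F) i n = act W (rs F σ) (x n) - x n := by
    intro i
    refine h1f W h hS (fun σ n => c (σ.restrictScalars F) i n) (fun n => ?_) (fun σ => hc.val _ i)
      (fun σ τ n => ?_) (fun v => hloc v i)
    · exact (hc.lc i n).comp_continuous (cont_rs F K)
    · have h2 := hc.mul (σ.restrictScalars F) (τ.restrictScalars F) i n
      rw [hone σ (fun j => c (τ.restrictScalars F) j n) i] at h2
      exact h2
  choose x hx1 hx2 using h1
  refine ⟨x, hx1, ?_⟩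
  set N : Subgroup (Sep K ≃ₐ[F] Sep K) :=
    (AlgEquiv.restrictScalarsHom F : (Sep K ≃ₐ[K] Sep K) →* _).range with hN
  have hnor : N.Normal := by
    refine ⟨fun σ hσ τ => ?_⟩
    obtain ⟨σ0, rfl⟩ := hσ
    refine ⟨AlgEquiv.ofRingEquiv (f := (τ * (σ0.restrictScalars F) * τ⁻¹ : Sep K ≃ₐ[F] Sep K).toRingEquiv)
      fun x => ?_, AlgEquiv.ext fun x => rfl⟩
    show τ (σ0 (τ⁻¹ (algebraMap K (Sep K) x))) = algebraMap K (Sep K) x
    have h3 : τ⁻¹ (algebraMap K (Sep K) x) =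
        algebraMap K (Sep K) (AlgEquiv.restrictNormalHom K τ⁻¹ x) :=
      (AlgEquiv.restrictNormal_commutes τ⁻¹ K x).symm
    rw [h3, σ0.commutes, ← h3, ← AlgEquiv.mul_apply, mul_inv_cancel, AlgEquiv.one_apply]
  refine descend p (fun σ => act W (rs F σ))
    (fun σ => (ρ (AlgEquiv.restrictNormalHom K σ) : Matrix (Fin g) (Fin g) ℤ))
    (fun σ τ P => ?_) (fun σ τ => ?_) N hnor ?_ ?_ c (fun σ i n => (hc.val σ i n).2) hc.mul x
    (fun i n => (hx1 i n).2) ?_
  · rw [act_act]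
    rfl
  · rw [map_mul, map_mul, Units.val_mul]
  · rintro _ ⟨σ, rfl⟩
    show (ρ (AlgEquiv.restrictNormalHom K (σ.restrictScalars F : Sep K ≃ₐ[F] Sep K)) :
        Matrix (Fin g) (Fin g) ℤ) = 1
    rw [hres, map_one, Units.val_one]
  · intro P hp hP
    exact h.fix_zero P hp fun σ => hP _ ⟨σ, rfl⟩
  · rintro _ ⟨σ, rfl⟩ i n
    exact hx2 i σ n

end main

end Pool.Agent.D0H50.BK
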