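import Pool.Agent.D0H50.BK.AbsV
import Pool.Agent.D0H50.BK.Bridge

/-!
# The Bloch-Kato Selmer groups of `V_p E ⊗ M` if `E(K)` is finite and `Ш(E / K)[p^∞]` has bounded exponent

(helper50)
-/

set_option autoImplicit false
set_option linter.all false

open IsDedekindDomain NumberField WeierstrassCurve WeierstrassCurve.Affine Pool.Agent.TH115.GD
open scoped Classical

namespace Pool.Agent.D0H50.BK

/-- the `p`-primary part of the Tate-Shafarevich group over `K` is killed by `p ^ m` (with conditions at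
all places) -/
def ShaKilled {F : Type} [Field F] (W : WeierstrassCurve F) (K : Type) [Field K] [NumberField K]
    [Algebra F K] (p m : ℕ) : Prop :=
  ∀ f : (Sep K ≃ₐ[K] Sep K) → Pt W (Sep K), IsCoc W f →
    (∀ v : HeightOneSpectrum (𝓞 K), LocTriv W (Comp (𝓞 K) K v) (Sep (Comp (𝓞 K) K v)) f) →
    (∀ (v : InfinitePlace K) [Algebra F v.Completion] [IsScalarTower F K v.Completion],
      LocTriv W v.Completion (Sep v.Completion) f) →
    (∃ n : ℕ, ∀ σ, p ^ n • f σ = 0) →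
    ∃ Q : Pt W (Sep K), ∀ σ, p ^ m • f σ = act W (rs F σ) Q - Q

/-- the vanishing of `H^1_f(K, V_p E)`, for all cocycles -/
def H1fZero {F : Type} [Field F] (W : WeierstrassCurve F) (K : Type) [Field K] [NumberField K]
    [Algebra F K] (p : ℕ) : Prop :=
  ∀ b : (Sep K ≃ₐ[K] Sep K) → ℕ → Pt W (Sep K),
    (∀ n, IsLocallyConstant fun σ => b σ n) → (∀ σ, IsV W p (b σ)) →
    (∀ σ τ n, b (σ * τ) n = b σ n + act W (rs F σ) (b τ n)) →
    (∀ v : HeightOneSpectrum (𝓞 K), Kummer W p (Comp (𝓞 K) K v) b) →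
    ∃ x : ℕ → Pt W (Sep K), IsV W p x ∧ ∀ σ n, b σ n = act W (rs F σ) (x n) - x n

section main

variable {F : Type} [Field F] (W : WeierstrassCurve F) {K : Type} [Field K] [Algebra F K]

/-- in the `p`-power torsion a cocycle with values in `V_p` is twice a cocycle -/
lemma half {p : ℕ} (hp : p.Prime) {b : (Sep K ≃ₐ[K] Sep K) → ℕ → Pt W (Sep K)}
    (val : ∀ σ, IsV W p (b σ)) (mul : ∀ σ τ n, b (σ * τ) n = b σ n + act W (rs F σ) (b τ n)) (n : ℕ)
    (hm : ∃ m : ℕ, ∀ σ, p ^ m • b σ n = 0) :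
    ∃ d : (Sep K ≃ₐ[K] Sep K) → Pt W (Sep K), (∀ σ, 2 • d σ = b σ n) ∧
      ∀ σ τ, d (σ * τ) = d σ + act W (rs F σ) (d τ) := by
  rcases hp.eq_two_or_odd' with rfl | hodd
  · exact ⟨fun σ => b σ (n + 1), fun σ => (val σ n).1, fun σ τ => mul σ τ (n + 1)⟩
  · obtain ⟨m, hm⟩ := hm
    obtain ⟨u, hu⟩ : ∃ u, p ^ m = 2 * u + 1 := (hodd.pow (n := m))
    refine ⟨fun σ => (u + 1) • b σ n, fun σ => ?_, fun σ τ => ?_⟩
    · rw [smul_smul, show 2 * (u + 1) = p ^ m + 1 by omega, add_smul, hm, zero_add, one_smul]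
    · show (u + 1) • b (σ * τ) n = (u + 1) • b σ n + act W (rs F σ) ((u + 1) • b τ n)
      rw [mul, nsmul_add, map_nsmul]

/-- the points fixed by the Galois group of `K` are finite in number if `E(K)` is finite -/
lemma finite_fix [Finite (Pt W K)] : Finite (Fix fun σ : Sep K ≃ₐ[K] Sep K => act W (rs F σ)) := by
  refine Finite.of_surjective (α := Pt W K)
    (fun R => ⟨act W (incl F K (Sep K)) R, fun σ => act_incl W σ R⟩) fun P => ?_
  obtain ⟨R, hR⟩ := exists_rat W P.1 P.2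
  exact ⟨R, Subtype.ext hR⟩

/-- `H^1_f(K, V_p E) = 0` -/
theorem h1fK [NumberField K] {p : ℕ} (hp : p.Prime) [Finite (Pt W K)] {m : ℕ}
    (hS : ShaKilled W K p m) : H1fZero W K p := by
  intro b lc val mul loc
  have h1 : ∀ n, ∃ m : ℕ, ∀ σ, p ^ m • b σ n = 0 := fun n =>
    bdd_of_lc (lc n) fun σ => (val σ n).2
  have hfin := finite_fix W (K := K)
  refine liftV (fun σ : Sep K ≃ₐ[K] Sep K => act W (rs F σ)) hp b (fun σ n => (val σ n).1) h1
    fun n => ?_
  obtain ⟨Q, hQ⟩ := hS (fun σ => b σ (n + m)) ⟨lc (n + m), fun σ τ => mul σ τ (n + m)⟩ (fun v => by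
      obtain ⟨ι, Q, -, hQ⟩ := loc v
      exact ⟨ι, Q (n + m), fun τ σ hσ => hQ τ σ hσ (n + m)⟩) (fun v => by
        intro _ _
        obtain ⟨d, hd1, hd2⟩ := half W hp val mul (n + m) (h1 (n + m))
        exact real_triv (twoAut v) (fun σ => b σ (n + m)) d hd1 hd2) (h1 (n + m))
  refine ⟨Q, fun σ => ?_⟩
  rw [← hQ σ]
  exact (IsVp.pow (val σ : IsVp p (b σ)) n m).symm

/-- `H^1_f(F, V_p E ⊗ M) = 0` from `H^1_f(K, V_p E) = 0` -/
theorem selmer_zeroV [NumberField K] [CharZero F] [Algebra.IsAlgebraic F K] [Normal F K] {p : ℕ}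
    (hp : p.Prime) [Finite (Pt W K)]
    (hS : H1fZero W K p) {g : ℕ} (ρ : (K ≃ₐ[F] K) →* GL (Fin g) ℤ) : SelmerZero W p ρ := by
  intro c hc hloc
  have hres : ∀ σ : Sep K ≃ₐ[K] Sep K,
      AlgEquiv.restrictNormalHom K (σ.restrictScalars F : Sep K ≃ₐ[F] Sep K) = 1 := by
    intro σ
    refine AlgEquiv.ext fun x => ?_
    apply (algebraMap K (Sep K)).injective
    have h1 := AlgEquiv.restrictNormal_commutes (σ.restrictScalars F : Sep K ≃ₐ[F] Sep K) K x
    refine h1.trans ?_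
    exact σ.commutes x
  have hone : ∀ (σ : Sep K ≃ₐ[K] Sep K) (y : Fin g → Pt W (Sep K)) (i : Fin g),
      ∑ j, (ρ (AlgEquiv.restrictNormalHom K (σ.restrictScalars F : Sep K ≃ₐ[F] Sep K)) :
        Matrix (Fin g) (Fin g) ℤ) i j • act W (rs F (σ.restrictScalars F : Sep K ≃ₐ[F] Sep K)) (y j) =
      act W (rs F σ) (y i) := by
    intro σ y i
    rw [hres, map_one, Finset.sum_eq_single i]
    · rw [Units.val_one, Matrix.one_apply_eq, one_smul]
      rfl
    · intro j _ hj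
      rw [Units.val_one, Matrix.one_apply_ne hj.symm, zero_smul]
    · intro h
      exact absurd (Finset.mem_univ i) h
  have h1 : ∀ i, ∃ x : ℕ → Pt W (Sep K), IsV W p x ∧ ∀ (σ : Sep K ≃ₐ[K] Sep K) (n : ℕ),
      c (σ.restrictScalars F) i n = act W (rs F σ) (x n) - x n := by
    intro i
    refine hS (fun σ n => c (σ.restrictScalars F) i n) (fun n => ?_) (fun σ => hc.val _ i)
      (fun σ τ n => ?_) (fun v => hloc v i)
    · exact (hc.lc i n).comp_continuous (cont_rs F K)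
    · have h2 := hc.mul (σ.restrictScalars F) (τ.restrictScalars F) i n
      rw [hone σ (fun j => c (τ.restrictScalars F) j n) i] at h2
      exact h2
  choose x hx1 hx2 using h1
  refine ⟨x, hx1, ?_⟩
  set N : Subgroup (Sep K ≃ₐ[F] Sep K) :=
    (AlgEquiv.restrictScalarsHom F : (Sep K ≃ₐ[K] Sep K) →* _).range with hN
  have hnor : N.Normal := by
    refine ⟨fun σ hσ τ => ?_⟩
    obtain ⟨σ0, rfl⟩ := hσ
    refine ⟨AlgEquiv.ofRingEquiv (f := (τ * (σ0.restrictScalars F) * τ⁻¹ : Sep K ≃ₐ[F] Sep K).toRingEquiv)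
      fun x => ?_, AlgEquiv.ext fun x => rfl⟩
    show τ (σ0 (τ⁻¹ (algebraMap K (Sep K) x))) = algebraMap K (Sep K) x
    have h3 : τ⁻¹ (algebraMap K (Sep K) x) =
        algebraMap K (Sep K) (AlgEquiv.restrictNormalHom K τ⁻¹ x) :=
      (AlgEquiv.restrictNormal_commutes τ⁻¹ K x).symm
    rw [h3, σ0.commutes, ← h3, ← AlgEquiv.mul_apply, mul_inv_cancel, AlgEquiv.one_apply]
  have hfin := finite_fix W (K := K)
  refine descendV p (fun σ => act W (rs F σ))
    (fun σ => (ρ (AlgEquiv.restrictNormalHom K σ) : Matrix (Fin g) (Fin g) ℤ))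
    (fun σ τ P => ?_) (fun σ τ => ?_) N hnor ?_ ?_ c (fun σ i => hc.val σ i) hc.mul x
    (fun i => hx1 i) ?_
  · rw [act_act]
    rfl
  · rw [map_mul, map_mul, Units.val_mul]
  · rintro _ ⟨σ, rfl⟩
    show (ρ (AlgEquiv.restrictNormalHom K (σ.restrictScalars F : Sep K ≃ₐ[F] Sep K)) :
        Matrix (Fin g) (Fin g) ℤ) = 1
    rw [hres, map_one, Units.val_one]
  · intro y hy hf
    refine hy.eq_zero hp (Fix fun σ : Sep K ≃ₐ[K] Sep K => act W (rs F σ)) fun n σ => ?_
    exact hf _ ⟨σ, rfl⟩ n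
  · rintro _ ⟨σ, rfl⟩ i n
    exact hx2 i σ n

end main

section trans

variable {F K : Type} [Field F] [Field K] [NumberField K] [Algebra F K] {W : WeierstrassCurve F}
  {W' : WeierstrassCurve K}

/-- the `p`-primary part of the Tate-Shafarevich group, for cocycles over the separable closure -/
theorem bridge' {p m : ℕ}
    (h : ∀ (k : ℕ) (x : Pool.Agent.TH841.NF.D.Sha W'), p ^ k • x = 0 → p ^ m • x = 0)
    (f : (Sep K ≃ₐ[K] Sep K) → Pt W' (Sep K)) (hf : IsCoc W' f)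
    (hv : ∀ v : HeightOneSpectrum (𝓞 K), LocTriv W' (Comp (𝓞 K) K v) (Sep (Comp (𝓞 K) K v)) f)
    (hw : ∀ v : InfinitePlace K, LocTriv W' v.Completion (Sep v.Completion) f)
    (hn : ∃ n : ℕ, ∀ σ, p ^ n • f σ = 0) :
    ∃ Q : Pt W' (Sep K), ∀ σ, p ^ m • f σ = act W' (rs K σ) Q - Q := by
  have hmem : up W' f ∈ Pool.Agent.TH841.NF.D.shaCoc W' := by
    refine ⟨up_coc hf, fun v => ?_, fun v => ?_⟩
    · haveI : CharZero (Comp (𝓞 K) K v) :=
        charZero_of_injective_algebraMap (algebraMap K (Comp (𝓞 K) K v)).injective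
      exact up_loc (L := Comp (𝓞 K) K v) hf (hv v)
    · haveI : CharZero v.Completion :=
        charZero_of_injective_algebraMap (algebraMap K v.Completion).injective
      exact up_loc hf (hw v)
  obtain ⟨n, hn⟩ := hn
  let s : Pool.Agent.TH841.NF.D.Sha W' := QuotientAddGroup.mk ⟨up W' f, hmem⟩
  have e2 : ∀ k : ℕ, p ^ k • (QuotientAddGroup.mk
      (⟨up W' f, hmem⟩ : Pool.Agent.TH841.NF.D.shaCoc W') : Pool.Agent.TH841.NF.D.Sha W') =
      QuotientAddGroup.mk (p ^ k • (⟨up W' f, hmem⟩ : Pool.Agent.TH841.NF.D.shaCoc W')) :=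
    fun k => rfl
  have hs : p ^ n • s = 0 := by
    have e1 : p ^ n • (⟨up W' f, hmem⟩ : Pool.Agent.TH841.NF.D.shaCoc W') = 0 := by
      apply Subtype.ext
      funext σ
      show p ^ n • (act W' (eC K).toAlgHom (f (cj (eC K) σ))) = 0
      rw [← map_nsmul, hn, map_zero]
    show p ^ n • (QuotientAddGroup.mk (⟨up W' f, hmem⟩ : Pool.Agent.TH841.NF.D.shaCoc W') :
      Pool.Agent.TH841.NF.D.Sha W') = 0
    rw [e2, e1]
    rfl
  have hs0 := h n s hs
  have hs0' : (QuotientAddGroup.mk (p ^ m • (⟨up W' f, hmem⟩ : Pool.Agent.TH841.NF.D.shaCoc W')) :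
      Pool.Agent.TH841.NF.D.Sha W') = 0 := hs0
  have hs1 := (QuotientAddGroup.eq_zero_iff _).1 hs0'
  rw [AddSubgroup.mem_addSubgroupOf] at hs1
  obtain ⟨P₀, hP₀⟩ := hs1
  obtain ⟨P, hP⟩ : ∃ P : Pt W' (AlgebraicClosure K), ∀ σ : AlgebraicClosure K ≃ₐ[K] AlgebraicClosure K,
      p ^ m • act W' (eC K).toAlgHom (f (cj (eC K) σ)) = act W' σ.toAlgHom P - P := ⟨P₀, hP₀⟩
  refine ⟨act W' (eC K).symm.toAlgHom P, fun σ => ?_⟩
  have h2 : cj (eC K) (cj (eC K).symm σ) = σ := by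
    refine AlgEquiv.ext fun x => ?_
    show (eC K).symm ((eC K) (σ ((eC K).symm (eC K x)))) = σ x
    rw [AlgEquiv.symm_apply_apply, AlgEquiv.symm_apply_apply]
  have h1 := hP (cj (eC K).symm σ)
  rw [h2] at h1
  have h3 : act W' (eC K).symm.toAlgHom (act W' (eC K).toAlgHom (f σ)) = f σ := by
    rw [act_act]
    have h4 : ((eC K).symm.toAlgHom).comp (eC K).toAlgHom = AlgHom.id K (Sep K) :=
      AlgHom.ext fun x => (eC K).symm_apply_apply x
    rw [h4]
    generalize f σ = R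
    rcases R with _ | ⟨x, y, h⟩
    · rfl
    · rfl
  have h6 : ((eC K).symm.toAlgHom).comp (cj (eC K).symm σ).toAlgHom =
      (rs K σ).comp (eC K).symm.toAlgHom := by
    refine AlgHom.ext fun x => ?_
    show (eC K).symm (eC K (σ ((eC K).symm x))) = σ ((eC K).symm x)
    rw [AlgEquiv.symm_apply_apply]
  rw [← h3, ← map_nsmul, h1, map_sub, act_act, h6, ← act_act]

/-- from the curve over `K` and its Tate-Shafarevich group to the curve over `F` -/
theorem shaKilled_of (h : W.baseChange K = W') {p m : ℕ}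
    (hS : ∀ (k : ℕ) (x : Pool.Agent.TH841.NF.D.Sha W'), p ^ k • x = 0 → p ^ m • x = 0) :
    ShaKilled W K p m := by
  intro f hf hloc hinf hn
  have hact : ∀ (σ : Sep K ≃ₐ[K] Sep K) (P : Pt W (Sep K)),
      tr h (Sep K) (act W (rs F σ) P) = act W' (rs K σ) (tr h (Sep K) P) :=
    fun σ P => tr_act h (rs F σ) (rs K σ) (fun x => rfl) P
  obtain ⟨Q, hQ⟩ := bridge' hS (fun σ => tr h (Sep K) (f σ)) ⟨hf.lc.comp _, fun σ τ => by
    rw [hf.mul, map_add, hact]⟩ (fun v => by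
      obtain ⟨ι, P, hP⟩ := hloc v
      refine ⟨ι, tr h _ P, fun τ σ hσ => ?_⟩
      have h1 := hP τ σ hσ
      rw [← tr_act h (ι.restrictScalars F) (ι.restrictScalars K) (fun x => rfl), h1, map_sub,
        tr_act h (rs F τ) (rs K τ) (fun x => rfl)]) (fun v => by
      letI : Algebra F v.Completion := ((algebraMap K v.Completion).comp (algebraMap F K)).toAlgebra
      haveI : IsScalarTower F K v.Completion := IsScalarTower.of_algebraMap_eq fun _ => rfl
      obtain ⟨ι, P, hP⟩ := hinf v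
      refine ⟨ι, tr h _ P, fun τ σ hσ => ?_⟩
      have h1 := hP τ σ hσ
      rw [← tr_act h (ι.restrictScalars F) (ι.restrictScalars K) (fun x => rfl), h1, map_sub,
        tr_act h (rs F τ) (rs K τ) (fun x => rfl)]) (by
      obtain ⟨n, hn⟩ := hn
      exact ⟨n, fun σ => by rw [← map_nsmul, hn, map_zero]⟩)
  refine ⟨(tr h _).symm Q, fun σ => ?_⟩
  apply (tr h (Sep K)).injective
  rw [map_sub, hact, AddEquiv.apply_symm_apply, map_nsmul, hQ]

/-- **The transfer theorem.** If `E(K)` is finite and the `p`-primary part of `Ш(E / K)` is killed by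
`p ^ m` then `H¹_f(F, V_p E ⊗ M) = 0` for all integral representations `M` of `Gal(K / F)`. -/
theorem all_zeroV [CharZero F] [Algebra.IsAlgebraic F K] [Normal F K] (h : W.baseChange K = W')
    {p m : ℕ} (hp : p.Prime) (hfin : Finite (Pt W' K))
    (hS : ∀ (k : ℕ) (x : Pool.Agent.TH841.NF.D.Sha W'), p ^ k • x = 0 → p ^ m • x = 0)
    {g : ℕ} (ρ : (K ≃ₐ[F] K) →* GL (Fin g) ℤ) : SelmerZero W p ρ := by
  haveI : Finite (Pt W K) := Finite.of_equiv _ (tr h K).toEquiv.symm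
  exact selmer_zeroV W hp (h1fK W hp (shaKilled_of h hS)) ρ

end trans

end Pool.Agent.D0H50.BK
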