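import Pool.Agent.D0H50.BK.Conc

/-!
# Change of the base field of the curve (helper50)
-/

set_option autoImplicit false
set_option linter.all false

open IsDedekindDomain NumberField WeierstrassCurve WeierstrassCurve.Affine Pool.Agent.TH115.GD
open scoped Classical

namespace Pool.Agent.D0H50.BK

section tr

variable {F K : Type} [Field F] [Field K] [Algebra F K] {W : WeierstrassCurve F}
  {W' : WeierstrassCurve K}

/-- the points of equal curves -/
noncomputable def trp {L : Type} [Field L] {C C' : Affine L} (h : C = C') : C.Point ≃+ C'.Point := by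
  subst h
  exact AddEquiv.refl _

lemma trp_some {L : Type} [Field L] {C C' : Affine L} (h : C = C') {a b : L}
    (hab : C.Nonsingular a b) : trp h (.some a b hab) = .some a b (h ▸ hab) := by
  subst h
  rfl

lemma crv_eq (h : W.baseChange K = W') (Ω : Type) [Field Ω] [Algebra F Ω] [Algebra K Ω]
    [IsScalarTower F K Ω] : (W.baseChange Ω).toAffine = (W'.baseChange Ω).toAffine := by
  subst h
  unfold WeierstrassCurve.baseChange WeierstrassCurve.toAffine
  rw [WeierstrassCurve.map_map, ← IsScalarTower.algebraMap_eq]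

/-- the points over an extension of `K` -/
noncomputable def tr (h : W.baseChange K = W') (Ω : Type) [Field Ω] [Algebra F Ω] [Algebra K Ω]
    [IsScalarTower F K Ω] : Pt W Ω ≃+ Pt W' Ω := trp (crv_eq h Ω)

lemma tr_act (h : W.baseChange K = W') {Ω Ω' : Type} [Field Ω] [Algebra F Ω] [Algebra K Ω]
    [IsScalarTower F K Ω] [Field Ω'] [Algebra F Ω'] [Algebra K Ω'] [IsScalarTower F K Ω']
    (φ : Ω →ₐ[F] Ω') (ψ : Ω →ₐ[K] Ω') (hφ : ∀ x, φ x = ψ x) (P : Pt W Ω) :
    tr h Ω' (act W φ P) = act W' ψ (tr h Ω P) := by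
  rcases P with _ | ⟨x, y, hxy⟩
  · show tr h Ω' (act W φ 0) = act W' ψ (tr h Ω 0)
    simp only [map_zero]
  · unfold tr
    rw [trp_some (crv_eq h Ω), act_some, act_some, trp_some (crv_eq h Ω')]
    congr 1
    · exact hφ x
    · exact hφ y

end tr

section main

variable {F K : Type} [Field F] [Field K] [NumberField K] [Algebra F K] {W : WeierstrassCurve F}
  {W' : WeierstrassCurve K}

/-- from the curve over `K` to the curve over `F` -/
theorem shaZero_of (h : W.baseChange K = W') {p : ℕ}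
    (hS : ∀ f : (Sep K ≃ₐ[K] Sep K) → Pt W' (Sep K), IsCoc W' f →
      (∀ v : HeightOneSpectrum (𝓞 K), LocTriv W' (Comp (𝓞 K) K v) (Sep (Comp (𝓞 K) K v)) f) →
      (∃ (n : ℕ) (Q : Pt W' (Sep K)), ∀ σ, p ^ n • f σ = act W' (rs K σ) Q - Q) →
      ∃ Q : Pt W' (Sep K), ∀ σ, f σ = act W' (rs K σ) Q - Q) : ShaZero W K p := by
  intro f hf hloc hn
  have hact : ∀ (σ : Sep K ≃ₐ[K] Sep K) (P : Pt W (Sep K)),
      tr h (Sep K) (act W (rs F σ) P) = act W' (rs K σ) (tr h (Sep K) P) :=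
    fun σ P => tr_act h (rs F σ) (rs K σ) (fun x => rfl) P
  obtain ⟨Q, hQ⟩ := hS (fun σ => tr h (Sep K) (f σ)) ⟨hf.lc.comp _, fun σ τ => by
    rw [hf.mul, map_add, hact]⟩ (fun v => by
      obtain ⟨ι, P, hP⟩ := hloc v
      refine ⟨ι, tr h _ P, fun τ σ hσ => ?_⟩
      have h1 := hP τ σ hσ
      rw [← tr_act h (ι.restrictScalars F) (ι.restrictScalars K) (fun x => rfl), h1, map_sub,
        tr_act h (rs F τ) (rs K τ) (fun x => rfl)]) (by
      obtain ⟨n, Q, hQ⟩ := hn
      refine ⟨n, tr h _ Q, fun σ => ?_⟩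
      rw [← map_nsmul, hQ, map_sub, hact])
  refine ⟨(tr h _).symm Q, fun σ => ?_⟩
  apply (tr h (Sep K)).injective
  rw [map_sub, hact, AddEquiv.apply_symm_apply, hQ]

theorem sub_of (h : W.baseChange K = W') (hS : Subsingleton (Pt W' K)) : Subsingleton (Pt W K) :=
  (tr h K).toEquiv.subsingleton

lemma uDiv_of_sub {p : ℕ} (h : Subsingleton (Pt W K)) : UDiv W K p :=
  ⟨fun P => ⟨0, Subsingleton.elim _ _⟩, fun P _ => Subsingleton.elim _ _⟩

/-- the vanishing for the twists by all integral representations over `F` -/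
theorem all_zero [CharZero F] [Algebra.IsAlgebraic F K] [Normal F K] (h : W.baseChange K = W') {p : ℕ}
    (hS : ∀ f : (Sep K ≃ₐ[K] Sep K) → Pt W' (Sep K), IsCoc W' f →
      (∀ v : HeightOneSpectrum (𝓞 K), LocTriv W' (Comp (𝓞 K) K v) (Sep (Comp (𝓞 K) K v)) f) →
      (∃ (n : ℕ) (Q : Pt W' (Sep K)), ∀ σ, p ^ n • f σ = act W' (rs K σ) Q - Q) →
      ∃ Q : Pt W' (Sep K), ∀ σ, f σ = act W' (rs K σ) Q - Q)
    (hE : Subsingleton (Pt W' K)) {g : ℕ} (ρ : (K ≃ₐ[F] K) →* GL (Fin g) ℤ) :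
    SelmerZero W p ρ :=
  selmer_zero W (uDiv_of_sub (sub_of h hE)) (shaZero_of h hS) ρ

end main

end Pool.Agent.D0H50.BK
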